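import Pool.Agent.Helper14.W5.StD

/-!
# A fast kernel check for the coefficient sums `cS`

One pass over the list, with four accumulators (one for each root of unity) which hold all coefficients at once (Kronecker substitution, base `2^64`).
-/

set_option autoImplicit false

namespace Pool.Agent.Helper99.T7

open Pool.Agent.Helper14.W5 (Tm aI bE lE wE oi4 mE gE cS M7)

/-! ### The computation -/

/-- residue modulo 25 -/
def r25 : ℤ → ℕ
  | Int.ofNat m => Nat.mod m 25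
  | Int.negSucc m => Nat.sub 24 (Nat.mod m 25)

/-- residue modulo 5 -/
def r5 : ℤ → ℕ
  | Int.ofNat m => Nat.mod m 5
  | Int.negSucc m => Nat.sub 4 (Nat.mod m 5)

/-- evaluation of the argument before the call -/
noncomputable def frc (n : ℕ) (f : ℕ → Bool) : Bool :=
  Nat.rec (motive := fun _ => Bool) (f 0) (fun m _ => f (Nat.succ m)) n

theorem frc_eq (n : ℕ) (f : ℕ → Bool) : frc n f = f n := by cases n <;> rfl

/-- inverse of the root of unity, by the residue of the determinant modulo 5 -/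
def oiN (r : ℕ) : ℕ := cond (Nat.beq r 1) 1 (cond (Nat.beq r 2) 18 (cond (Nat.beq r 4) 24 7))

/-- the contribution of a term -/
def valN (K ai b c le r : ℕ) : ℕ :=
  Nat.add (Nat.mul (Nat.mul (Nat.mul K
    (Nat.mod (Nat.pow (Nat.add 1 (Nat.pow 2 64)) (Nat.mod (Nat.mul (Nat.mul c ai) (oiN r)) 25)) (Nat.pow 2 448)))
    (Nat.add 1 (Nat.mul (Nat.div (Nat.mod (Nat.mul le (oiN r)) 25) 5) (Nat.pow 2 3136))))
    (Nat.mod (Nat.pow (Nat.add 1 (Nat.pow 2 448)) b) (Nat.pow 2 3136)))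
    (Nat.pow 2 6272)

/-- the data of a term, passed on -/
noncomputable def stp (t : Tm) (k : ℕ → ℕ → Bool) : Bool :=
  frc (r25 t.2.1) fun A => frc (Nat.mod (Nat.pow A 19) 25) fun ai =>
  frc (r25 t.2.2.1) fun b => frc (r25 t.2.2.2.1) fun c =>
  frc (Nat.mod (Nat.mul (Nat.add (Nat.mul A (r25 t.2.2.2.2)) (Nat.mul 20 (Nat.mul b c)))
    (Nat.mul ai ai)) 25) fun le =>
  frc (Nat.mod le 5) fun r =>
  k r (valN (r5 t.1) ai (Nat.mod (Nat.mul b ai) 25) c le r)

/-- one pass over the list -/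
noncomputable def go (chk : ℕ → ℕ → ℕ → ℕ → Bool) (L : List Tm) : ℕ → ℕ → ℕ → ℕ → Bool :=
  List.rec (motive := fun _ => ℕ → ℕ → ℕ → ℕ → Bool) chk
    (fun t _ ih n0 n1 n2 n3 => stp t fun r v =>
      cond (Nat.beq r 1) (frc (Nat.add n0 v) fun n => ih n n1 n2 n3)
      (cond (Nat.beq r 2) (frc (Nat.add n1 v) fun n => ih n0 n n2 n3)
      (cond (Nat.beq r 4) (frc (Nat.add n2 v) fun n => ih n0 n1 n n3)
      (frc (Nat.add n3 v) fun n => ih n0 n1 n2 n)))) L

/-- the coefficient of index i, k, j of an accumulator in the bases `P`, `Q`, `X` -/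
def dgtG (P Q X N i k j : ℕ) : ℕ :=
  Nat.mod (Nat.div (Nat.mod (Nat.div (Nat.mod (Nat.div N (Nat.pow X k)) X) (Nat.pow Q j)) Q)
    (Nat.pow P i)) P

/-- the coefficient of index i, k, j of an accumulator -/
def dgt (N i k j : ℕ) : ℕ := dgtG (Nat.pow 2 64) (Nat.pow 2 448) (Nat.pow 2 3136) N i k j

/-- the monomials of weight at most 6 -/
def m7L : List (ℕ × ℕ × ℕ) :=
  [(0, 0, 0), (0, 0, 1), (0, 0, 2), (0, 0, 3), (0, 0, 4), (0, 0, 5), (0, 0, 6),
   (1, 0, 0), (1, 0, 1), (1, 0, 2), (1, 0, 3), (1, 0, 4), (1, 0, 5),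
   (2, 0, 0), (2, 0, 1), (2, 0, 2), (2, 0, 3), (2, 0, 4),
   (3, 0, 0), (3, 0, 1), (3, 0, 2), (3, 0, 3),
   (4, 0, 0), (4, 0, 1), (4, 0, 2), (5, 0, 0), (5, 0, 1), (6, 0, 0),
   (0, 1, 0), (0, 1, 1), (0, 1, 2), (1, 1, 0), (1, 1, 1), (2, 1, 0)]

/-- the check of one accumulator -/
def ck (want : ℕ → ℕ → ℕ → ℤ) (N : ℕ) : Bool :=
  (Nat.ble (Nat.div N (Nat.pow 2 6272)) (Nat.pow 2 20)) &&
  m7L.all fun t => Nat.beq (Nat.mod (dgt N t.1 t.2.1 t.2.2) 5) (r5 (want t.1 t.2.1 t.2.2))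

/-- the fast check -/
noncomputable def fastC (L : List Tm) (want : Fin 4 → ℕ → ℕ → ℕ → ℤ) : Bool :=
  go (fun n0 n1 n2 n3 => (ck (want 0) n0 && ck (want 1) n1) && (ck (want 2) n2 && ck (want 3) n3))
    L 0 0 0 0

/-! ### Residues -/

private theorem r25_eq (a : ℤ) : ((r25 a : ℕ) : ℤ) = a % 25 := by
  cases a with
  | ofNat m => exact Int.natCast_mod m 25
  | negSucc m =>
    change ((24 - m % 25 : ℕ) : ℤ) = _
    have h : m % 25 < 25 := Nat.mod_lt _ (by norm_num)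
    rw [Int.negSucc_eq]
    omega

private theorem r5_eq (a : ℤ) : ((r5 a : ℕ) : ℤ) = a % 5 := by
  cases a with
  | ofNat m => exact Int.natCast_mod m 5
  | negSucc m =>
    change ((4 - m % 5 : ℕ) : ℤ) = _
    have h : m % 5 < 5 := Nat.mod_lt _ (by norm_num)
    rw [Int.negSucc_eq]
    omega

private theorem r5_lt (a : ℤ) : r5 a < 5 := by
  have h := r5_eq a
  have h2 := Int.emod_lt_of_pos a (by norm_num : (0 : ℤ) < 5)
  omega

private theorem r25m (a : ℤ) : ((r25 a : ℕ) : ℤ) ≡ a [ZMOD 25] := by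
  rw [r25_eq]; exact Int.mod_modEq a 25

private def aiN (t : Tm) : ℕ := Nat.mod (Nat.pow (r25 t.2.1) 19) 25

private theorem aiN_eq (t : Tm) : ((aiN t : ℕ) : ℤ) = aI t := by
  change (((r25 t.2.1 ^ 19 % 25 : ℕ)) : ℤ) = (t.2.1 ^ 19) % 25
  push_cast
  exact (r25m t.2.1).pow 19

private def bN (t : Tm) : ℕ := Nat.mod (Nat.mul (r25 t.2.2.1) (aiN t)) 25

private theorem bN_eq (t : Tm) : bN t = bE t := by
  have h : ((bN t : ℕ) : ℤ) = (t.2.2.1 * aI t) % 25 := by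
    change (((r25 t.2.2.1 * aiN t % 25 : ℕ)) : ℤ) = _
    push_cast
    rw [aiN_eq]
    exact (r25m t.2.2.1).mul_right _
  unfold bE
  rw [← h, Int.toNat_natCast]

private def lN (t : Tm) : ℕ :=
  Nat.mod (Nat.mul (Nat.add (Nat.mul (r25 t.2.1) (r25 t.2.2.2.2))
    (Nat.mul 20 (Nat.mul (r25 t.2.2.1) (r25 t.2.2.2.1)))) (Nat.mul (aiN t) (aiN t))) 25

private theorem lN_eq (t : Tm) : ((lN t : ℕ) : ℤ) = lE t := by
  change ((((r25 t.2.1 * r25 t.2.2.2.2 + 20 * (r25 t.2.2.1 * r25 t.2.2.2.1)) *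
    (aiN t * aiN t) % 25 : ℕ)) : ℤ) =
    ((t.2.1 * t.2.2.2.2 - 5 * t.2.2.1 * t.2.2.2.1) * aI t ^ 2) % 25
  push_cast
  rw [aiN_eq]
  have h1 := (r25m t.2.1).mul (r25m t.2.2.2.2)
  have h2 := (r25m t.2.2.1).mul (r25m t.2.2.2.1)
  have h3 : (t.2.1 * t.2.2.2.2 + 20 * (t.2.2.1 * t.2.2.2.1)) ≡
      (t.2.1 * t.2.2.2.2 - 5 * t.2.2.1 * t.2.2.2.1) [ZMOD 25] := by
    apply Int.modEq_iff_dvd.2
    exact ⟨-(t.2.2.1 * t.2.2.2.1), by ring⟩
  have h4 := (h1.add (h2.mul_left 20)).trans h3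
  have h5 := h4.mul_right (aI t * aI t)
  rw [pow_two]
  exact h5

private def rN (t : Tm) : ℕ := Nat.mod (lN t) 5

private theorem rN_eq (t : Tm) : ((rN t : ℕ) : ℤ) = lE t % 5 := by
  change (((lN t % 5 : ℕ)) : ℤ) = _
  push_cast
  rw [lN_eq]

private theorem rN_lt (t : Tm) : rN t < 5 := Nat.mod_lt _ (by norm_num)

private theorem cases_r (t : Tm) : (rN t = 1 ∧ wE t = 0) ∨ (rN t = 2 ∧ wE t = 1) ∨
    (rN t = 4 ∧ wE t = 2) ∨ ((rN t = 0 ∨ rN t = 3) ∧ wE t = 3) := by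
  have h := rN_eq t
  have hlt := rN_lt t
  unfold wE
  rw [← h]
  have : rN t = 0 ∨ rN t = 1 ∨ rN t = 2 ∨ rN t = 3 ∨ rN t = 4 := by omega
  rcases this with e | e | e | e | e <;> rw [e] <;> simp

private theorem oi_eq (t : Tm) : ((oiN (rN t) : ℕ) : ℤ) = oi4 (wE t) := by
  rcases cases_r t with ⟨h, h'⟩ | ⟨h, h'⟩ | ⟨h, h'⟩ | ⟨h | h, h'⟩ <;> rw [h, h'] <;> rfl

private def gN (t : Tm) : ℕ :=
  Nat.mod (Nat.mul (Nat.mul (r25 t.2.2.2.1) (aiN t)) (oiN (rN t))) 25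

private theorem gN_eq (t : Tm) : gN t = gE t := by
  have h : ((gN t : ℕ) : ℤ) = (t.2.2.2.1 * aI t * oi4 (wE t)) % 25 := by
    change (((r25 t.2.2.2.1 * aiN t * oiN (rN t) % 25 : ℕ)) : ℤ) = _
    push_cast
    rw [aiN_eq, oi_eq]
    exact ((r25m t.2.2.2.1).mul_right _).mul_right _
  unfold gE
  rw [← h, Int.toNat_natCast]

private def mN (t : Tm) : ℕ := Nat.div (Nat.mod (Nat.mul (lN t) (oiN (rN t))) 25) 5

private theorem mN_eq (t : Tm) : mN t = mE t := by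
  have h : ((mN t : ℕ) : ℤ) = ((lE t * oi4 (wE t)) % 25) / 5 := by
    change (((lN t * oiN (rN t) % 25 / 5 : ℕ)) : ℤ) = _
    push_cast
    rw [lN_eq, oi_eq]
  unfold mE
  rw [← h, Int.toNat_natCast]

private theorem b_lt (t : Tm) : bE t < 25 := by
  rw [← bN_eq]; exact Nat.mod_lt _ (by norm_num)

private theorem g_lt (t : Tm) : gE t < 25 := by
  rw [← gN_eq]; exact Nat.mod_lt _ (by norm_num)

private theorem m_lt (t : Tm) : mE t < 5 := by
  rw [← mN_eq]
  have h : lN t * oiN (rN t) % 25 < 25 := Nat.mod_lt _ (by norm_num)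
  change lN t * oiN (rN t) % 25 / 5 < 5
  omega

/-! ### The contribution of a term -/

private def Bs : ℕ := 2 ^ 64

private theorem gsum : ∀ g < 25, Nat.mod (Nat.pow (Nat.add 1 (Nat.pow 2 64)) g) (Nat.pow 2 448) =
    ∑ i ∈ Finset.range 7, g.choose i * (2 ^ 64) ^ i := by
  decide +kernel

private theorem zsum : ∀ b < 25, Nat.mod (Nat.pow (Nat.add 1 (Nat.pow 2 448)) b) (Nat.pow 2 3136) =
    ∑ j ∈ Finset.range 7, b.choose j * (2 ^ 448) ^ j := by
  decide +kernel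

private theorem ch_le : ∀ g < 25, ∀ i < 7, g.choose i ≤ 2 ^ 18 := by
  decide +kernel

private theorem ch_m : ∀ m < 5, ∀ k < 2, m.choose k ≤ 4 := by
  decide

/-- the value of a term as a function of its data -/
private def vT (t : Tm) : ℕ :=
  valN (r5 t.1) (aiN t) (bN t) (r25 t.2.2.2.1) (lN t) (rN t)

/-- the coefficient of a term -/
private def cT (t : Tm) (i k j : ℕ) : ℕ :=
  r5 t.1 * ((gE t).choose i * (mE t).choose k * (bE t).choose j)

private theorem two (f : ℕ → ℕ) : ∑ k ∈ Finset.range 2, f k = f 0 + f 1 := by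
  rw [Finset.sum_range_succ, Finset.sum_range_one]

private theorem alg (r G m Z X : ℕ) : r * G * (1 + m * X) * Z + X ^ 2 =
    (1 * (r * G * Z)) * X ^ 0 + (m * (r * G * Z)) * X ^ 1 + X ^ 2 := by ring

private theorem p6272 : (2 : ℕ) ^ 6272 = (2 ^ 3136) ^ 2 := by
  have h : (6272 : ℕ) = 3136 * 2 := by norm_num
  rw [h, pow_mul]

private theorem vT_eq (t : Tm) : vT t =
    (∑ k ∈ Finset.range 2, (∑ j ∈ Finset.range 7, (∑ i ∈ Finset.range 7,
      cT t i k j * (2 ^ 64) ^ i) * (2 ^ 448) ^ j) * (2 ^ 3136) ^ k) + (2 ^ 3136) ^ 2 := by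
  have hv : vT t = r5 t.1 *
      (Nat.mod (Nat.pow (Nat.add 1 (Nat.pow 2 64)) (gN t)) (Nat.pow 2 448)) *
      (1 + mN t * 2 ^ 3136) *
      (Nat.mod (Nat.pow (Nat.add 1 (Nat.pow 2 448)) (bN t)) (Nat.pow 2 3136)) + 2 ^ 6272 := rfl
  rw [hv, gN_eq, mN_eq, bN_eq, gsum _ (g_lt t), zsum _ (b_lt t)]
  have e1 : ∀ k, (∑ j ∈ Finset.range 7, (∑ i ∈ Finset.range 7,
      cT t i k j * (2 ^ 64) ^ i) * (2 ^ 448) ^ j) =
      (mE t).choose k * (r5 t.1 * (∑ i ∈ Finset.range 7, (gE t).choose i * (2 ^ 64) ^ i) *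
        (∑ j ∈ Finset.range 7, (bE t).choose j * (2 ^ 448) ^ j)) := by
    intro k
    rw [Finset.mul_sum, Finset.mul_sum]
    refine Finset.sum_congr rfl fun j _ => ?_
    rw [Finset.mul_sum, Finset.sum_mul, Finset.sum_mul, Finset.mul_sum]
    refine Finset.sum_congr rfl fun i _ => ?_
    unfold cT
    ring
  rw [two, e1, e1, Nat.choose_zero_right, Nat.choose_one_right, p6272]
  exact alg _ _ _ _ _

private theorem cT_le (t : Tm) (i k j : ℕ) (hi : i < 7) (hk : k < 2) (hj : j < 7) :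
    cT t i k j ≤ 2 ^ 40 := by
  have h1 := ch_le _ (g_lt t) i hi
  have h2 := ch_le _ (b_lt t) j hj
  have h3 := ch_m _ (m_lt t) k hk
  have h4 : r5 t.1 ≤ 4 := by have := r5_lt t.1; omega
  unfold cT
  calc _ ≤ 4 * (2 ^ 18 * 4 * 2 ^ 18) :=
        Nat.mul_le_mul h4 (Nat.mul_le_mul (Nat.mul_le_mul h1 h3) h2)
    _ = _ := by norm_num

/-! ### Sums over the list -/

private def NN (w : Fin 4) (L : List Tm) : ℕ := (L.map fun t => if wE t = w then vT t else 0).sum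

private def CC (w : Fin 4) (i k j : ℕ) (L : List Tm) : ℕ :=
  (L.map fun t => if wE t = w then cT t i k j else 0).sum

private def cn (w : Fin 4) (L : List Tm) : ℕ := (L.map fun t => if wE t = w then 1 else 0).sum

private theorem NN_eq (w : Fin 4) (L : List Tm) : NN w L =
    (∑ k ∈ Finset.range 2, (∑ j ∈ Finset.range 7, (∑ i ∈ Finset.range 7,
      CC w i k j L * (2 ^ 64) ^ i) * (2 ^ 448) ^ j) * (2 ^ 3136) ^ k) +
      cn w L * (2 ^ 3136) ^ 2 := by
  induction L with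
  | nil => simp [NN, CC, cn]
  | cons t L ih =>
    have e1 : NN w (t :: L) = (if wE t = w then vT t else 0) + NN w L := by simp [NN]
    have e2 : cn w (t :: L) = (if wE t = w then 1 else 0) + cn w L := by simp [cn]
    have e3 : ∀ i k j, CC w i k j (t :: L) = (if wE t = w then cT t i k j else 0) +
        CC w i k j L := by intro i k j; simp [CC]
    rw [e1, e2, ih]
    simp only [e3]
    split_ifs with h
    · rw [vT_eq]
      simp only [add_mul, Finset.sum_add_distrib]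
      ring
    · simp only [zero_add]

private theorem CC_le (w : Fin 4) (i k j : ℕ) (L : List Tm) (hi : i < 7) (hk : k < 2)
    (hj : j < 7) : CC w i k j L ≤ cn w L * 2 ^ 40 := by
  induction L with
  | nil => simp [CC, cn]
  | cons t L ih =>
    have e2 : cn w (t :: L) = (if wE t = w then 1 else 0) + cn w L := by simp [cn]
    have e3 : CC w i k j (t :: L) = (if wE t = w then cT t i k j else 0) +
        CC w i k j L := by simp [CC]
    rw [e2, e3, add_mul]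
    refine Nat.add_le_add ?_ ih
    split_ifs
    · rw [one_mul]; exact cT_le t i k j hi hk hj
    · exact Nat.zero_le _

private theorem CC_mod (w : Fin 4) (i k j : ℕ) (L : List Tm) :
    (5 : ℤ) ∣ cS L w i k j - (CC w i k j L : ℤ) := by
  induction L with
  | nil => simp [CC, cS]
  | cons t L ih =>
    have e3 : CC w i k j (t :: L) = (if wE t = w then cT t i k j else 0) +
        CC w i k j L := by simp [CC]
    have e4 : cS (t :: L) w i k j = (if wE t = w then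
        (t.1 : ℤ) * (((gE t).choose i * (mE t).choose k * (bE t).choose j : ℕ) : ℤ) else 0) +
        cS L w i k j := by simp [cS]
    rw [e3, e4]
    push_cast
    have h5 : (5 : ℤ) ∣ (t.1 : ℤ) - (r5 t.1 : ℤ) := by
      rw [r5_eq]; exact Int.dvd_self_sub_emod
    split_ifs with h
    · have e5 : ((cT t i k j : ℕ) : ℤ) = (r5 t.1 : ℤ) *
          (((gE t).choose i * (mE t).choose k * (bE t).choose j : ℕ) : ℤ) := by
        unfold cT; push_cast; ring
      rw [e5]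
      have e6 : (t.1 : ℤ) * (((gE t).choose i : ℤ) * ((mE t).choose k : ℤ) *
          ((bE t).choose j : ℤ)) + cS L w i k j - ((r5 t.1 : ℤ) *
          (((gE t).choose i * (mE t).choose k * (bE t).choose j : ℕ) : ℤ) + (CC w i k j L : ℤ)) =
          ((t.1 : ℤ) - (r5 t.1 : ℤ)) * (((gE t).choose i : ℤ) * ((mE t).choose k : ℤ) *
          ((bE t).choose j : ℤ)) + (cS L w i k j - (CC w i k j L : ℤ)) := by
        push_cast; ring
      rw [e6]
      exact dvd_add (Dvd.dvd.mul_right h5 _) ih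
    · simpa using ih

/-! ### Digits -/

private theorem dig_lt (Q : ℕ) (D : ℕ → ℕ) (n : ℕ) (h : ∀ e < n, D e < Q) :
    ∑ e ∈ Finset.range n, D e * Q ^ e < Q ^ n := by
  induction n with
  | zero => simp
  | succ n ih =>
    rw [Finset.sum_range_succ, pow_succ]
    have h1 := ih fun e he => h e (by omega)
    have h2 : D n + 1 ≤ Q := h n (by omega)
    calc _ < Q ^ n + D n * Q ^ n := by omega
      _ = Q ^ n * (D n + 1) := by ring
      _ ≤ _ := Nat.mul_le_mul_left _ h2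

private theorem dig (Q : ℕ) (hQ : 0 < Q) (D : ℕ → ℕ) (n : ℕ) (h : ∀ e < n, D e < Q) (e0 : ℕ)
    (he : e0 < n) : (∑ e ∈ Finset.range n, D e * Q ^ e) / Q ^ e0 % Q = D e0 := by
  obtain ⟨m, rfl⟩ : ∃ m, n = e0 + (1 + m) := ⟨n - e0 - 1, by omega⟩
  rw [Finset.sum_range_add]
  have h1 := dig_lt Q D e0 fun e he' => h e (by omega)
  have e2 : ∑ x ∈ Finset.range (1 + m), D (e0 + x) * Q ^ (e0 + x) =
      Q ^ e0 * (D e0 + Q * ∑ x ∈ Finset.range m, D (e0 + (1 + x)) * Q ^ x) := by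
    rw [Finset.sum_range_add, Finset.sum_range_one, Nat.mul_add, Finset.mul_sum, Finset.mul_sum]
    congr 1
    · rw [add_zero]; ring
    · refine Finset.sum_congr rfl fun x _ => ?_
      rw [pow_add, pow_add]; ring
  have hp : 0 < Q ^ e0 := pow_pos hQ _
  rw [e2, Nat.add_mul_div_left _ _ hp, Nat.div_eq_of_lt h1, zero_add, Nat.add_mul_mod_self_left,
    Nat.mod_eq_of_lt (h e0 he)]

private theorem dgtG_eq (P Q X N i k j : ℕ) :
    dgtG P Q X N i k j = N / X ^ k % X / Q ^ j % Q / P ^ i % P := rfl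

private theorem dgt_def (N i k j : ℕ) :
    dgt N i k j = dgtG (2 ^ 64) (2 ^ 448) (2 ^ 3136) N i k j := rfl

private theorem aux3 (S : ℕ → ℕ) (c Q : ℕ) : (∑ k ∈ Finset.range 2, S k * Q ^ k) + c * Q ^ 2 =
    ∑ k ∈ Finset.range 3, (if k < 2 then S k else c) * Q ^ k := by
  simp [Finset.sum_range_succ]

private theorem dgt_eq (w : Fin 4) (L : List Tm)
    (hc : NN w L / 2 ^ 6272 ≤ 2 ^ 20) (i k j : ℕ) (hi : i < 7) (hk : k < 2) (hj : j < 7) :
    dgt (NN w L) i k j = CC w i k j L := by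
  have hcn : cn w L ≤ 2 ^ 20 := by
    refine le_trans ?_ hc
    rw [Nat.le_div_iff_mul_le (by positivity), NN_eq, ← pow_mul]
    exact Nat.le_add_left _ _
  have hC : ∀ i < 7, ∀ k < 2, ∀ j < 7, CC w i k j L < 2 ^ 64 := by
    intro i hi k hk j hj
    calc CC w i k j L ≤ cn w L * 2 ^ 40 := CC_le w i k j L hi hk hj
      _ ≤ 2 ^ 20 * 2 ^ 40 := Nat.mul_le_mul_right _ hcn
      _ < 2 ^ 64 := by norm_num
  set Y : ℕ → ℕ → ℕ := fun k j => ∑ i ∈ Finset.range 7, CC w i k j L * (2 ^ 64) ^ i with hY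
  have hY1 : ∀ k < 2, ∀ j < 7, Y k j < 2 ^ 448 := by
    intro k hk j hj
    have := dig_lt (2 ^ 64) (fun i => CC w i k j L) 7
      (fun i hi => hC i hi k hk j hj)
    rwa [← pow_mul] at this
  set X : ℕ → ℕ := fun k => if k < 2 then ∑ j ∈ Finset.range 7, Y k j * (2 ^ 448) ^ j
    else cn w L with hX
  have hX1 : ∀ k < 3, X k < 2 ^ 3136 := by
    intro k hk
    simp only [hX]
    split_ifs with h
    · have := dig_lt (2 ^ 448) (fun j => Y k j) 7 (fun j hj => hY1 k h j hj)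
      rwa [← pow_mul] at this
    · refine lt_of_le_of_lt hcn ?_
      exact Nat.pow_lt_pow_right (by norm_num) (by norm_num)
  have hN : NN w L = ∑ k ∈ Finset.range 3, X k * (2 ^ 3136) ^ k :=
    (NN_eq w L).trans (aux3 _ _ _)
  have d1 := dig (2 ^ 3136) (by positivity) X 3 hX1 k (by omega)
  rw [← hN] at d1
  have d2 := dig (2 ^ 448) (by positivity) (fun j => Y k j) 7 (fun j hj => hY1 k hk j hj) j hj
  have d3 := dig (2 ^ 64) (by positivity) (fun i => CC w i k j L) 7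
    (fun i hi => hC i hi k hk j hj) i hi
  rw [dgt_def, dgtG_eq, d1]
  have e1 : X k = ∑ j ∈ Finset.range 7, Y k j * (2 ^ 448) ^ j := by
    simp only [hX]; rw [if_pos hk]
  rw [e1, d2]
  exact d3

/-! ### The pass -/

private theorem stp_eq (t : Tm) (k : ℕ → ℕ → Bool) : stp t k = k (rN t) (vT t) := by
  unfold stp
  simp only [frc_eq]
  rfl

private theorem go_eq (chk : ℕ → ℕ → ℕ → ℕ → Bool) (L : List Tm) : ∀ n0 n1 n2 n3 : ℕ,
    go chk L n0 n1 n2 n3 = chk (n0 + NN 0 L) (n1 + NN 1 L) (n2 + NN 2 L) (n3 + NN 3 L) := by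
  induction L with
  | nil => intro n0 n1 n2 n3; rfl
  | cons t L ih =>
    intro n0 n1 n2 n3
    have e : go chk (t :: L) n0 n1 n2 n3 = stp t fun r v =>
      cond (Nat.beq r 1) (frc (Nat.add n0 v) fun n => go chk L n n1 n2 n3)
      (cond (Nat.beq r 2) (frc (Nat.add n1 v) fun n => go chk L n0 n n2 n3)
      (cond (Nat.beq r 4) (frc (Nat.add n2 v) fun n => go chk L n0 n1 n n3)
      (frc (Nat.add n3 v) fun n => go chk L n0 n1 n2 n))) := rfl
    have e1 : ∀ w, NN w (t :: L) = (if wE t = w then vT t else 0) + NN w L := by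
      intro w; simp [NN]
    rw [e, stp_eq]
    simp only [frc_eq, ih, e1]
    rcases cases_r t with ⟨h, h'⟩ | ⟨h, h'⟩ | ⟨h, h'⟩ | ⟨h | h, h'⟩ <;> rw [h, h'] <;>
      simp [Nat.beq, add_assoc]

private theorem m7_mem : ∀ t ∈ M7, t ∈ m7L := by decide

private theorem m7_lt : ∀ t ∈ M7, t.1 < 7 ∧ t.2.1 < 2 ∧ t.2.2 < 7 := by decide

private theorem ck_spec (want : ℕ → ℕ → ℕ → ℤ) (w : Fin 4) (L : List Tm)
    (h : ck want (NN w L) = true) :
    ∀ t ∈ M7, (5 : ℤ) ∣ cS L w t.1 t.2.1 t.2.2 - want t.1 t.2.1 t.2.2 := by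
  intro t ht
  unfold ck at h
  rw [Bool.and_eq_true, List.all_eq_true] at h
  obtain ⟨h1, h2⟩ := h
  have h3 := h2 t (m7_mem t ht)
  obtain ⟨hi, hk, hj⟩ := m7_lt t ht
  have h4 := Nat.eq_of_beq_eq_true h3
  rw [dgt_eq w L (Nat.le_of_ble_eq_true h1) _ _ _ hi hk hj] at h4
  have h4' : CC w t.1 t.2.1 t.2.2 L % 5 = r5 (want t.1 t.2.1 t.2.2) := h4
  have h5 := CC_mod w t.1 t.2.1 t.2.2 L
  have h6 := r5_eq (want t.1 t.2.1 t.2.2)
  omega

theorem cS_fast (L : List Tm) (want : Fin 4 → ℕ → ℕ → ℕ → ℤ) (h : fastC L want = true) :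
    ∀ w : Fin 4, ∀ t ∈ M7, (5 : ℤ) ∣ cS L w t.1 t.2.1 t.2.2 - want w t.1 t.2.1 t.2.2 := by
  unfold fastC at h
  rw [go_eq] at h
  simp only [zero_add, Bool.and_eq_true] at h
  obtain ⟨⟨h0, h1⟩, h2, h3⟩ := h
  intro w
  fin_cases w
  · exact ck_spec _ 0 L h0
  · exact ck_spec _ 1 L h1
  · exact ck_spec _ 2 L h2
  · exact ck_spec _ 3 L h3

end Pool.Agent.Helper99.T7
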